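import Mathlib

/-!
# Rational functions with palindromic numerators: polynomial algebra
-/

set_option autoImplicit false

open Polynomial

namespace Pool.Agent.R840.GS

/-- `1 + X + ⋯ + X ^ (e - 1)` -/
noncomputable def geo (e : ℕ) : ℚ[X] := ∑ j ∈ Finset.range e, X ^ j

theorem geo_mul (e : ℕ) : (1 - X) * geo e = 1 - X ^ e := mul_neg_geom_sum X e

theorem geo_coeff (e n : ℕ) : (geo e).coeff n = if n < e then 1 else 0 := by
  unfold geo
  rw [finsetSum_coeff]
  simp only [coeff_X_pow]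
  rw [Finset.sum_ite_eq]
  simp

theorem geo_eval (e : ℕ) : (geo e).eval 1 = e := by
  unfold geo
  rw [eval_finsetSum]
  simp

theorem geo_ne_zero {e : ℕ} (he : 0 < e) : geo e ≠ 0 := by
  intro h
  have := geo_coeff e 0
  rw [h, if_pos he, coeff_zero] at this
  exact zero_ne_one this

theorem geo_natDegree {e : ℕ} (he : 0 < e) : (geo e).natDegree = e - 1 := by
  apply natDegree_eq_of_le_of_coeff_ne_zero
  · rw [natDegree_le_iff_coeff_eq_zero]
    intro n hn
    rw [geo_coeff, if_neg (by omega)]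
  · rw [geo_coeff, if_pos (by omega)]
    exact one_ne_zero

/-- A polynomial of degree `s` with symmetric coefficients is its own reverse. -/
theorem reverse_eq {p : ℚ[X]} {s : ℕ} (hs : p.natDegree = s)
    (h : ∀ n d, n + d = s → p.coeff n = p.coeff d) : p.reverse = p := by
  ext n
  rw [coeff_reverse, hs]
  by_cases hn : n ≤ s
  · rw [revAt_le hn]
    exact h _ _ (by omega)
  · rw [revAt_eq_self_of_lt (by omega)]

theorem coeff_symm_of_reverse {p : ℚ[X]} (h : p.reverse = p) {n d : ℕ}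
    (hnd : n + d = p.natDegree) : p.coeff n = p.coeff d := by
  nth_rewrite 1 [← h]
  rw [coeff_reverse, revAt_le (by omega)]
  congr 1
  omega

theorem geo_reverse {e : ℕ} (he : 0 < e) : (geo e).reverse = geo e := by
  refine reverse_eq (geo_natDegree he) ?_
  intro n d hnd
  rw [geo_coeff, geo_coeff, if_pos (by omega), if_pos (by omega)]

theorem coprime_geo (n : ℕ) : IsCoprime (geo n) (geo (n + 1)) := by
  refine ⟨- X, 1, ?_⟩
  unfold geo
  rw [Finset.sum_range_succ', Finset.mul_sum]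
  simp only [pow_succ', pow_zero]
  rw [one_mul, ← add_assoc, ← Finset.sum_add_distrib]
  simp

/-- From the two equations: `(1 - X) ^ m * h` is a polynomial, if it is after multiplication with
`∏ (1 - X ^ e i)` with `m` factors. -/
theorem exists_Q {m : ℕ} (e : Fin m → ℕ) (he : ∀ i, 0 < e i) (h : PowerSeries ℚ) (n r r' : ℕ)
    (G G' N : ℚ[X]) (hn : 0 < n)
    (h1 : ((1 - X ^ n : ℚ[X]) : PowerSeries ℚ) ^ r * h = (G : PowerSeries ℚ))
    (h2 : ((1 - X ^ (n + 1) : ℚ[X]) : PowerSeries ℚ) ^ r' * h = (G' : PowerSeries ℚ))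
    (h3 : ((∏ i, (1 - X ^ e i) : ℚ[X]) : PowerSeries ℚ) * h = (N : PowerSeries ℚ)) :
    ∃ Q : ℚ[X], ((1 - X : ℚ[X]) : PowerSeries ℚ) ^ m * h = (Q : PowerSeries ℚ) ∧
      Q * ∏ i, geo (e i) = N := by
  have hcop : IsCoprime (geo n ^ r) (geo (n + 1) ^ r') := (coprime_geo n).pow
  obtain ⟨u, v, huv⟩ := hcop
  have hprod : (∏ i, (1 - X ^ e i) : ℚ[X]) = (1 - X) ^ m * ∏ i, geo (e i) := by
    simp only [← geo_mul]
    rw [Finset.prod_mul_distrib, Finset.prod_const, Finset.card_univ, Fintype.card_fin]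
  set E : ℚ[X] := ∏ i, geo (e i) with hE
  have hne : ((1 - X : ℚ[X]) : PowerSeries ℚ) ≠ 0 := by
    intro h0
    have h0' : (1 - X : ℚ[X]) = 0 := by exact_mod_cast h0
    have := congrArg (fun p => p.coeff 0) h0'
    simp at this
  -- `(1 - X) ^ (r + r' + m) h` is a polynomial
  have hG : ∃ F : ℚ[X], ((1 - X : ℚ[X]) : PowerSeries ℚ) ^ (r + r' + m) * h =
      (F : PowerSeries ℚ) := by
    refine ⟨(1 - X) ^ m * (u * (1 - X) ^ r' * G + v * (1 - X) ^ r * G'), ?_⟩
    have e1 : ((1 - X ^ n : ℚ[X]) : PowerSeries ℚ) = ((1 - X : ℚ[X]) : PowerSeries ℚ) *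
        (geo n : PowerSeries ℚ) := by
      rw [← geo_mul, coe_mul]
    have e2 : ((1 - X ^ (n + 1) : ℚ[X]) : PowerSeries ℚ) = ((1 - X : ℚ[X]) : PowerSeries ℚ) *
        (geo (n + 1) : PowerSeries ℚ) := by
      rw [← geo_mul, coe_mul]
    have e3 : (u : PowerSeries ℚ) * (geo n : PowerSeries ℚ) ^ r +
        (v : PowerSeries ℚ) * (geo (n + 1) : PowerSeries ℚ) ^ r' = 1 := by
      have := congrArg (fun p : ℚ[X] => (p : PowerSeries ℚ)) huv
      simpa only [coe_add, coe_mul, coe_pow, coe_one] using this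
    rw [e1] at h1
    rw [e2] at h2
    simp only [coe_add, coe_mul, coe_pow]
    rw [← h1, ← h2]
    generalize ((1 - X : ℚ[X]) : PowerSeries ℚ) = a at *
    calc a ^ (r + r' + m) * h = a ^ (r + r' + m) * h *
          ((u : PowerSeries ℚ) * (geo n : PowerSeries ℚ) ^ r +
            (v : PowerSeries ℚ) * (geo (n + 1) : PowerSeries ℚ) ^ r') := by rw [e3, mul_one]
      _ = _ := by ring
  obtain ⟨F, hF⟩ := hG
  have hFE : F * E = (1 - X) ^ (r + r') * N := by
    have : ((F * E : ℚ[X]) : PowerSeries ℚ) = (((1 - X) ^ (r + r') * N : ℚ[X]) : PowerSeries ℚ) := by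
      rw [coe_mul, ← hF, coe_mul, ← h3, hprod, coe_mul, coe_pow, coe_pow]
      ring
    exact_mod_cast this
  have hcop2 : IsCoprime ((1 - X : ℚ[X]) ^ (r + r')) E := by
    apply IsCoprime.pow_left
    have hirr : Irreducible (X - C (1 : ℚ)) := irreducible_X_sub_C 1
    have h5 : IsCoprime (X - C (1 : ℚ)) E := by
      rw [hirr.coprime_iff_not_dvd, dvd_iff_isRoot]
      intro hroot
      have h6 : E.eval 1 = 0 := hroot
      rw [hE, eval_prod] at h6
      rw [Finset.prod_eq_zero_iff] at h6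
      obtain ⟨i, _, hi⟩ := h6
      rw [geo_eval] at hi
      exact (he i).ne' (by exact_mod_cast hi)
    have h7 : (1 - X : ℚ[X]) = - (X - C 1) := by
      rw [C_1]
      ring
    rw [h7]
    exact h5.neg_left
  obtain ⟨Q, hQ⟩ := hcop2.dvd_of_dvd_mul_right ⟨N, hFE⟩
  have hpoly_ne : (1 - X : ℚ[X]) ≠ 0 := by
    intro h0
    exact hne (by rw [h0, coe_zero])
  refine ⟨Q, ?_, ?_⟩
  · have h8 : ((1 - X : ℚ[X]) : PowerSeries ℚ) ^ (r + r') *
        (((1 - X : ℚ[X]) : PowerSeries ℚ) ^ m * h) =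
        ((1 - X : ℚ[X]) : PowerSeries ℚ) ^ (r + r') * (Q : PowerSeries ℚ) := by
      rw [← mul_assoc, ← pow_add, hF, hQ, coe_mul, coe_pow]
    exact mul_left_cancel₀ (pow_ne_zero _ hne) h8
  · rw [hQ, mul_assoc] at hFE
    exact mul_left_cancel₀ (pow_ne_zero _ hpoly_ne) hFE

end Pool.Agent.R840.GS
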