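import Pool.Agent.R840.GS.D
import Pool.Agent.R840.GS.E

/-!
# Elements of degree one of graded Gorenstein rings with invertible `O(1)`
-/

set_option autoImplicit false

open DirectSum

namespace Pool.Agent.R840.GS

theorem coeffs (h : PowerSeries ℚ) (m : ℕ) :
    PowerSeries.coeff 0 (((1 - Polynomial.X : Polynomial ℚ) : PowerSeries ℚ) ^ m * h) =
      PowerSeries.coeff 0 h ∧
    PowerSeries.coeff 1 (((1 - Polynomial.X : Polynomial ℚ) : PowerSeries ℚ) ^ m * h) =
      PowerSeries.coeff 1 h - m * PowerSeries.coeff 0 h ∧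
    PowerSeries.coeff 2 (((1 - Polynomial.X : Polynomial ℚ) : PowerSeries ℚ) ^ m * h) =
      PowerSeries.coeff 2 h - m * PowerSeries.coeff 1 h +
        (m * (m - 1) / 2 : ℚ) * PowerSeries.coeff 0 h := by
  induction m with
  | zero => simp
  | succ m ih =>
    obtain ⟨h0, h1, h2⟩ := ih
    set g := ((1 - Polynomial.X : Polynomial ℚ) : PowerSeries ℚ) ^ m * h with hg
    have hs : ((1 - Polynomial.X : Polynomial ℚ) : PowerSeries ℚ) ^ (m + 1) * h =
        g - PowerSeries.X * g := by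
      rw [hg, pow_succ, Polynomial.coe_sub, Polynomial.coe_one, Polynomial.coe_X]
      ring
    rw [hs, map_sub, map_sub, map_sub]
    have e0 : PowerSeries.coeff 0 (PowerSeries.X * g) = 0 := by simp
    have e1 : PowerSeries.coeff 1 (PowerSeries.X * g) = PowerSeries.coeff 0 g :=
      PowerSeries.coeff_succ_X_mul 0 g
    have e2 : PowerSeries.coeff 2 (PowerSeries.X * g) = PowerSeries.coeff 1 g :=
      PowerSeries.coeff_succ_X_mul 1 g
    rw [e0, e1, e2, h0, h1, h2]
    refine ⟨by ring, ?_, ?_⟩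
    · push_cast
      ring
    · push_cast
      ring

variable {k S : Type} [Field k] [CommRing S] [Algebra k S] (𝒮 : ℕ → Submodule k S)
  [GradedAlgebra 𝒮]

/-- The numerator `Q` of the Hilbert series with the denominator `(1 - X) ^ m`. -/
theorem exists_numerator [IsNoetherianRing S] [∀ n, Module.Finite k (𝒮 n)]
    (h0 : ∀ x ∈ 𝒮 0, ∃ c : k, algebraMap k S c = x) (hinv : TwistInvertible 𝒮) {m : ℕ} {θ : Fin m → S}
    {e : Fin m → ℕ} {σ : ℕ} (h : GorData 𝒮 θ e σ) :
    ∃ Q : Polynomial ℚ, Q.reverse = Q ∧ Q.natDegree + ∑ i, (e i - 1) = σ ∧ Q.coeff 0 = 1 ∧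
      Q.coeff 1 = Module.finrank k (𝒮 1) - m ∧
      Q.coeff 2 = Module.finrank k (𝒮 2) - m * Module.finrank k (𝒮 1) + (m * (m - 1) / 2 : ℚ) ∧
      Q.eval 1 * ∏ i, (e i : ℚ) =
        ∑ n ∈ Finset.range (σ + 1), (hf 𝒮 (Ideal.span (Set.range θ)) n : ℚ) ∧
      0 < Q.eval 1 := by
  have hnt : Nontrivial S := by
    obtain ⟨x, _, hx⟩ := h.top_mem
    refine ⟨⟨x, 0, ?_⟩⟩
    rintro rfl
    exact hx (Ideal.zero_mem _)
  set I := Ideal.span (Set.range θ) with hI
  obtain ⟨n, r, r', G, G', hn, hG, hG'⟩ := two_eqs 𝒮 hinv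
  have hN := H_poly 𝒮 (I := I) (M := σ + 1) (fun j hj x hx => h.top j (by omega) x hx)
  set N : Polynomial ℚ := ∑ n ∈ Finset.range (σ + 1), Polynomial.monomial n (hf 𝒮 I n : ℚ)
    with hNdef
  have hfull := H_full 𝒮 h
  rw [← hI, hN] at hfull
  have hprod : ((∏ i, (1 - Polynomial.X ^ e i) : Polynomial ℚ) : PowerSeries ℚ) =
      ∏ i, (1 - (PowerSeries.X : PowerSeries ℚ) ^ e i) := by
    have h1 := map_prod (Polynomial.coeToPowerSeries.ringHom (R := ℚ))
      (fun i => (1 - Polynomial.X ^ e i : Polynomial ℚ)) Finset.univ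
    rw [Polynomial.coeToPowerSeries.ringHom_apply] at h1
    rw [h1]
    refine Finset.prod_congr rfl fun i _ => ?_
    rw [Polynomial.coeToPowerSeries.ringHom_apply, Polynomial.coe_sub, Polynomial.coe_one,
      Polynomial.coe_pow, Polynomial.coe_X]
  obtain ⟨Q, hQ, hQE⟩ := exists_Q e h.pos (H 𝒮 ⊥) n r r' G G' N hn hG hG'
    (by rw [hprod]; exact hfull)
  set E : Polynomial ℚ := ∏ i, geo (e i) with hE
  -- coefficients of `N`
  have hNc : ∀ j, N.coeff j = if j ≤ σ then (hf 𝒮 I j : ℚ) else 0 := by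
    intro j
    rw [hNdef, Polynomial.finsetSum_coeff]
    simp only [Polynomial.coeff_monomial]
    rw [Finset.sum_ite_eq' (Finset.range (σ + 1)) j]
    simp only [Finset.mem_range, Nat.lt_succ_iff]
  have hb0 : hf 𝒮 I 0 = 1 := hf_bot_zero 𝒮 h0 I fun x hx hxI => zero_of_mem 𝒮 h hx hxI
  have hbσ : hf 𝒮 I σ = 1 := by
    rw [hf_symm 𝒮 h (show σ + 0 = σ by omega), hb0]
  have hNdeg : N.natDegree = σ := by
    apply Polynomial.natDegree_eq_of_le_of_coeff_ne_zero
    · rw [Polynomial.natDegree_le_iff_coeff_eq_zero]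
      intro j hj
      rw [hNc, if_neg (by omega)]
    · rw [hNc, if_pos le_rfl, hbσ]
      norm_num
  have hNrev : N.reverse = N := by
    refine reverse_eq hNdeg ?_
    intro a b hab
    rw [hNc, hNc, if_pos (by omega), if_pos (by omega), hf_symm 𝒮 h hab]
  have hErev : E.reverse = E := by
    rw [hE]
    refine Finset.prod_induction (fun i => geo (e i)) (fun p => p.reverse = p) ?_ ?_ ?_
    · intro a b ha hb
      rw [Polynomial.reverse_mul_of_domain, ha, hb]
    · exact reverse_eq (s := 0) Polynomial.natDegree_one fun a b hab => by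
        obtain rfl : a = 0 := by omega
        obtain rfl : b = 0 := by omega
        rfl
    · intro i _
      exact geo_reverse (h.pos i)
  have hEne : E ≠ 0 := Finset.prod_ne_zero_iff.2 fun i _ => geo_ne_zero (h.pos i)
  have hEdeg : E.natDegree = ∑ i, (e i - 1) := by
    rw [hE, Polynomial.natDegree_prod _ _ fun i _ => geo_ne_zero (h.pos i)]
    exact Finset.sum_congr rfl fun i _ => geo_natDegree (h.pos i)
  have hNne : N ≠ 0 := by
    intro h1
    have := hNc 0
    rw [h1, if_pos (Nat.zero_le _), hb0] at this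
    simp at this
  have hQne : Q ≠ 0 := by
    rintro rfl
    exact hNne (by rw [← hQE, zero_mul])
  have hE1 : E.eval 1 = ∏ i, (e i : ℚ) := by
    rw [hE, Polynomial.eval_prod]
    exact Finset.prod_congr rfl fun i _ => geo_eval (e i)
  have hE1pos : 0 < E.eval 1 := by
    rw [hE1]
    exact Finset.prod_pos fun i _ => by exact_mod_cast h.pos i
  have hN1 : N.eval 1 = ∑ n ∈ Finset.range (σ + 1), (hf 𝒮 I n : ℚ) := by
    rw [hNdef, Polynomial.eval_finsetSum]
    simp
  have hN1pos : 0 < N.eval 1 := by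
    rw [hN1]
    refine Finset.sum_pos' (fun i _ => Nat.cast_nonneg _) ⟨0, by simp, ?_⟩
    rw [hb0]
    norm_num
  have hQ1 : Q.eval 1 * E.eval 1 = N.eval 1 := by
    rw [← Polynomial.eval_mul, hQE]
  have hE0 : E.coeff 0 = 1 := by
    rw [Polynomial.coeff_zero_eq_eval_zero, hE, Polynomial.eval_prod]
    refine Finset.prod_eq_one fun i _ => ?_
    rw [← Polynomial.coeff_zero_eq_eval_zero, geo_coeff, if_pos (h.pos i)]
  have hbot0 : PowerSeries.coeff 0 (H 𝒮 ⊥) = 1 := by
    unfold H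
    rw [PowerSeries.coeff_mk, hf_bot_zero 𝒮 h0 ⊥ fun x _ hx => hx, Nat.cast_one]
  have hbot : ∀ j, PowerSeries.coeff j (H 𝒮 ⊥) = Module.finrank k (𝒮 j) := by
    intro j
    unfold H
    rw [PowerSeries.coeff_mk]
    have hp : part 𝒮 (⊥ : Ideal S) j = ⊥ := by
      rw [eq_bot_iff]
      intro x hx
      exact Subtype.ext hx
    unfold hf
    rw [hp, (Submodule.quotEquivOfEqBot _ rfl).finrank_eq]
  obtain ⟨c0, c1, c2⟩ := coeffs (H 𝒮 ⊥) m
  rw [hQ, Polynomial.coeff_coe] at c0 c1 c2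
  rw [hbot0] at c0 c1 c2
  rw [hbot] at c1 c2
  rw [hbot] at c2
  refine ⟨Q, ?_, ?_, c0, ?_, ?_, ?_, ?_⟩
  · have h1 : Q.reverse * E = Q * E := by
      nth_rewrite 1 [← hErev]
      rw [← Polynomial.reverse_mul_of_domain, hQE, hNrev]
    exact mul_right_cancel₀ hEne h1
  · rw [← hEdeg, ← Polynomial.natDegree_mul hQne hEne, hQE, hNdeg]
  · rw [c1, mul_one]
  · rw [c2, mul_one]
  · rw [← hE1, hQ1, hN1]
  · by_contra hcon
    have : Q.eval 1 * E.eval 1 ≤ 0 := mul_nonpos_of_nonpos_of_nonneg (not_lt.1 hcon) hE1pos.le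
    rw [hQ1] at this
    exact absurd hN1pos (not_lt.2 this)

end Pool.Agent.R840.GS
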