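import Mathlib

/-!
# Hilbert functions of homogeneous ideals: the relation for the multiplication with an element
-/

set_option autoImplicit false

open DirectSum

namespace Pool.Agent.R840.GS

variable {k S : Type} [Field k] [CommRing S] [Algebra k S] (𝒮 : ℕ → Submodule k S)

/-- The elements of degree `n` of the ideal `I`, as a subspace of the elements of degree `n`. -/
def part (I : Ideal S) (n : ℕ) : Submodule k (𝒮 n) :=
  (I.restrictScalars k).comap (𝒮 n).subtype

theorem mem_part {I : Ideal S} {n : ℕ} {x : 𝒮 n} : x ∈ part 𝒮 I n ↔ (x : S) ∈ I := Iff.rfl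

/-- The Hilbert function of `S / I`. -/
noncomputable def hf (I : Ideal S) (n : ℕ) : ℕ := Module.finrank k (𝒮 n ⧸ part 𝒮 I n)

/-- The Hilbert series of `S / I`. -/
noncomputable def H (I : Ideal S) : PowerSeries ℚ := PowerSeries.mk fun n => (hf 𝒮 I n : ℚ)

/-- The ideal quotient `(I : f)`. -/
def col (I : Ideal S) (f : S) : Ideal S := Submodule.comap (LinearMap.lsmul S S f) I

theorem mem_col {I : Ideal S} {f x : S} : x ∈ col I f ↔ f * x ∈ I := Iff.rfl

theorem le_col (I : Ideal S) (f : S) : I ≤ col I f := fun _ hx => I.mul_mem_left f hx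

variable [GradedAlgebra 𝒮]

theorem col_hom {I : Ideal S} (hI : I.IsHomogeneous 𝒮) {f : S} {e : ℕ} (hf : f ∈ 𝒮 e) :
    (col I f).IsHomogeneous 𝒮 := by
  intro n x hx
  have h := hI (e + n) (show f * x ∈ I from hx)
  rw [coe_decompose_mul_add_of_left_mem 𝒮 hf] at h
  exact h

theorem sup_hom {I : Ideal S} (hI : I.IsHomogeneous 𝒮) {f : S} {e : ℕ} (hf : f ∈ 𝒮 e) :
    (I ⊔ Ideal.span {f}).IsHomogeneous 𝒮 := by
  refine hI.sup (Ideal.homogeneous_span 𝒮 _ ?_)
  rintro x rfl
  exact ⟨e, hf⟩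

/-- In degrees below the degree of `f` nothing changes. -/
theorem hf_lt {I : Ideal S} (hI : I.IsHomogeneous 𝒮) {f : S} {e : ℕ} (hf' : f ∈ 𝒮 e) {n : ℕ}
    (hn : n < e) : hf 𝒮 (I ⊔ Ideal.span {f}) n = hf 𝒮 I n := by
  have h : part 𝒮 (I ⊔ Ideal.span {f}) n = part 𝒮 I n := by
    ext x
    rw [mem_part, mem_part]
    constructor
    · intro hx
      obtain ⟨a, ha, b, hb, hab⟩ := Submodule.mem_sup.1 hx
      obtain ⟨g, rfl⟩ := Ideal.mem_span_singleton'.1 hb
      have h1 := congrArg (fun z => (decompose 𝒮 z n : S)) hab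
      simp only [decompose_add, DirectSum.add_apply, Submodule.coe_add] at h1
      rw [mul_comm g f, coe_decompose_mul_of_left_mem_of_not_le 𝒮 hf' (by omega), add_zero,
        decompose_of_mem_same 𝒮 x.2] at h1
      rw [← h1]
      exact hI n ha
    · intro hx
      exact (le_sup_left : I ≤ I ⊔ Ideal.span {f}) hx
  unfold hf
  rw [h]

/-- The relation between the Hilbert functions of `I`, `(I : f)` and `I + (f)`. -/
theorem hf_add [∀ n, Module.Finite k (𝒮 n)] {I : Ideal S} (hI : I.IsHomogeneous 𝒮) {f : S} {e : ℕ}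
    (hf' : f ∈ 𝒮 e) (n : ℕ) :
    hf 𝒮 I (e + n) = hf 𝒮 (col I f) n + hf 𝒮 (I ⊔ Ideal.span {f}) (e + n) := by
  -- the multiplication with `f`
  let μ : 𝒮 n →ₗ[k] 𝒮 (e + n) :=
    { toFun := fun x => ⟨f * x, SetLike.mul_mem_graded hf' x.2⟩
      map_add' := fun x y => Subtype.ext (mul_add _ _ _)
      map_smul' := fun c x => Subtype.ext (mul_smul_comm c f (x : S)) }
  let φ : 𝒮 n →ₗ[k] (𝒮 (e + n) ⧸ part 𝒮 I (e + n)) := (part 𝒮 I (e + n)).mkQ ∘ₗ μ
  have hker : LinearMap.ker φ = part 𝒮 (col I f) n := by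
    ext x
    rw [LinearMap.mem_ker, mem_part, mem_col]
    change (part 𝒮 I (e + n)).mkQ (μ x) = 0 ↔ _
    rw [Submodule.mkQ_apply, Submodule.Quotient.mk_eq_zero, mem_part]
    exact Iff.rfl
  have hle : part 𝒮 I (e + n) ≤ part 𝒮 (I ⊔ Ideal.span {f}) (e + n) := fun x hx =>
    (le_sup_left : I ≤ I ⊔ Ideal.span {f}) hx
  let ψ : (𝒮 (e + n) ⧸ part 𝒮 I (e + n)) →ₗ[k]
      (𝒮 (e + n) ⧸ part 𝒮 (I ⊔ Ideal.span {f}) (e + n)) := Submodule.factor hle
  have hψ : Function.Surjective ψ := Submodule.factor_surjective hle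
  have hex : LinearMap.ker ψ = LinearMap.range φ := by
    ext z
    obtain ⟨x, rfl⟩ := Submodule.mkQ_surjective _ z
    constructor
    · intro hz
      have hx : (x : S) ∈ I ⊔ Ideal.span {f} := by
        have h1 : ψ ((part 𝒮 I (e + n)).mkQ x) = 0 := hz
        change (part 𝒮 (I ⊔ Ideal.span {f}) (e + n)).mkQ x = 0 at h1
        rw [Submodule.mkQ_apply, Submodule.Quotient.mk_eq_zero, mem_part] at h1
        exact h1
      obtain ⟨a, ha, b, hb, hab⟩ := Submodule.mem_sup.1 hx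
      obtain ⟨g, rfl⟩ := Ideal.mem_span_singleton'.1 hb
      have h1 := congrArg (fun z => (decompose 𝒮 z (e + n) : S)) hab
      simp only [decompose_add, DirectSum.add_apply, Submodule.coe_add] at h1
      rw [mul_comm g f, coe_decompose_mul_add_of_left_mem 𝒮 hf',
        decompose_of_mem_same 𝒮 x.2] at h1
      refine ⟨decompose 𝒮 g n, ?_⟩
      change (part 𝒮 I (e + n)).mkQ (μ (decompose 𝒮 g n)) = (part 𝒮 I (e + n)).mkQ x
      rw [Submodule.mkQ_apply, Submodule.mkQ_apply, Submodule.Quotient.eq, mem_part]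
      have h2 : ((μ (decompose 𝒮 g n) - x : 𝒮 (e + n)) : S) =
          - (decompose 𝒮 a (e + n) : S) := by
        rw [Submodule.coe_sub, ← h1]
        change f * (decompose 𝒮 g n : S) - _ = _
        ring
      rw [h2]
      exact I.neg_mem (hI (e + n) ha)
    · rintro ⟨y, hy⟩
      rw [LinearMap.mem_ker, ← hy]
      change (part 𝒮 (I ⊔ Ideal.span {f}) (e + n)).mkQ (μ y) = 0
      rw [Submodule.mkQ_apply, Submodule.Quotient.mk_eq_zero, mem_part]
      exact (le_sup_right : Ideal.span {f} ≤ I ⊔ Ideal.span {f})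
        (Ideal.mul_mem_right _ _ (Ideal.subset_span rfl))
  have h1 := LinearMap.finrank_range_add_finrank_ker ψ
  rw [LinearMap.range_eq_top.2 hψ, finrank_top, hex] at h1
  have h2 : Module.finrank k (LinearMap.range φ) = hf 𝒮 (col I f) n := by
    unfold hf
    rw [← hker]
    exact (LinearMap.quotKerEquivRange φ).finrank_eq.symm
  rw [h2] at h1
  unfold hf at h1 ⊢
  omega

open PowerSeries in
theorem H_rel [∀ n, Module.Finite k (𝒮 n)] {I : Ideal S} (hI : I.IsHomogeneous 𝒮) {f : S} {e : ℕ}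
    (hf' : f ∈ 𝒮 e) :
    H 𝒮 I = (X : PowerSeries ℚ) ^ e * H 𝒮 (col I f) + H 𝒮 (I ⊔ Ideal.span {f}) := by
  ext n
  rw [map_add, coeff_X_pow_mul']
  unfold H
  rw [coeff_mk, coeff_mk, coeff_mk]
  split_ifs with h
  · obtain ⟨m, rfl⟩ := Nat.exists_eq_add_of_le h
    rw [Nat.add_sub_cancel_left, hf_add 𝒮 hI hf' m]
    push_cast
    ring
  · rw [hf_lt 𝒮 hI hf' (by omega), zero_add]

end Pool.Agent.R840.GS
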