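import Pool.Agent.R840.GS.A

/-!
# Rationality of Hilbert series
-/

set_option autoImplicit false

open DirectSum

namespace Pool.Agent.R840.GS

variable {k S : Type} [Field k] [CommRing S] [Algebra k S] (𝒮 : ℕ → Submodule k S)

/-- Almost all homogeneous elements are in `J`. -/
def Cof (J : Ideal S) : Prop := ∃ M, ∀ j, M ≤ j → ∀ x ∈ 𝒮 j, x ∈ J

theorem Cof.mono {I J : Ideal S} (h : I ≤ J) (hI : Cof 𝒮 I) : Cof 𝒮 J := by
  obtain ⟨M, hM⟩ := hI
  exact ⟨M, fun j hj x hx => h (hM j hj x hx)⟩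

theorem hf_zero_of {I : Ideal S} {n : ℕ} (h : ∀ x ∈ 𝒮 n, x ∈ I) : hf 𝒮 I n = 0 := by
  have h1 : part 𝒮 I n = ⊤ := by
    rw [eq_top_iff]
    intro x _
    exact h x x.2
  unfold hf
  rw [h1, Module.finrank_zero_iff]
  infer_instance

/-- If almost all elements are in `I` the Hilbert series is a polynomial. -/
theorem H_poly {I : Ideal S} {M : ℕ} (hM : ∀ j, M ≤ j → ∀ x ∈ 𝒮 j, x ∈ I) :
    H 𝒮 I = ((∑ n ∈ Finset.range M, Polynomial.monomial n (hf 𝒮 I n : ℚ) : Polynomial ℚ) :
      PowerSeries ℚ) := by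
  ext n
  rw [Polynomial.coeff_coe, Polynomial.finsetSum_coeff]
  unfold H
  rw [PowerSeries.coeff_mk]
  by_cases hn : n < M
  · rw [Finset.sum_eq_single n]
    · rw [Polynomial.coeff_monomial, if_pos rfl]
    · intro b _ hb
      rw [Polynomial.coeff_monomial, if_neg hb]
    · intro h
      exact absurd (Finset.mem_range.2 hn) h
  · rw [hf_zero_of 𝒮 (hM n (by omega)), Nat.cast_zero, Finset.sum_eq_zero]
    intro b hb
    rw [Polynomial.coeff_monomial, if_neg]
    have := Finset.mem_range.1 hb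
    omega

variable [GradedAlgebra 𝒮]

/-- Hilbert–Serre: if the elements `L` of degree `e` generate with `I` an ideal which contains almost
all homogeneous elements, the Hilbert series of `S / I` times `(1 - X ^ e) ^ #L` is a polynomial. -/
theorem hilbert_serre [IsNoetherianRing S] [∀ n, Module.Finite k (𝒮 n)] (e : ℕ) :
    ∀ (L : List S), (∀ f ∈ L, f ∈ 𝒮 e) → ∀ (I : Ideal S), I.IsHomogeneous 𝒮 →
      Cof 𝒮 (I ⊔ Ideal.span {f | f ∈ L}) →
      ∃ G : Polynomial ℚ, ((1 - Polynomial.X ^ e : Polynomial ℚ) : PowerSeries ℚ) ^ L.length *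
        H 𝒮 I = (G : PowerSeries ℚ) := by
  intro L
  induction L with
  | nil =>
    intro _ I _ hc
    have h0 : I ⊔ Ideal.span {f | f ∈ ([] : List S)} = I := by simp
    rw [h0] at hc
    obtain ⟨M, hM⟩ := hc
    refine ⟨∑ n ∈ Finset.range M, Polynomial.monomial n (hf 𝒮 I n : ℚ), ?_⟩
    rw [List.length_nil, pow_zero, one_mul]
    exact H_poly 𝒮 hM
  | cons f L ih =>
    intro hL I
    have hf' : f ∈ 𝒮 e := hL f List.mem_cons_self
    have hL' : ∀ g ∈ L, g ∈ 𝒮 e := fun g hg => hL g (List.mem_cons_of_mem _ hg)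
    have hspan : Ideal.span {g | g ∈ f :: L} = Ideal.span {f} ⊔ Ideal.span {g | g ∈ L} := by
      rw [← Ideal.span_union]
      congr 1
      ext g
      simp
    induction I using WellFoundedGT.induction with
    | ind I ih2 =>
      intro hI hc
      rw [hspan, ← sup_assoc] at hc
      obtain ⟨G', hG'⟩ := ih hL' _ (sup_hom 𝒮 hI hf') hc
      have hrel := H_rel 𝒮 hI hf'
      by_cases hcol : col I f = I
      · refine ⟨G', ?_⟩
        rw [hcol] at hrel
        have h1 : ((1 - Polynomial.X ^ e : Polynomial ℚ) : PowerSeries ℚ) * H 𝒮 I =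
            H 𝒮 (I ⊔ Ideal.span {f}) := by
          push_cast
          rw [sub_mul, one_mul]
          nth_rewrite 1 [hrel]
          ring
        rw [List.length_cons, pow_succ, mul_assoc, h1]
        exact hG'
      · have hlt : I < col I f := lt_of_le_of_ne (le_col I f) (fun h => hcol h.symm)
        obtain ⟨G₁, hG₁⟩ := ih2 _ hlt (col_hom 𝒮 hI hf') (by
          refine Cof.mono 𝒮 ?_ hc
          rw [hspan, ← sup_assoc]
          exact sup_le_sup_right (sup_le_sup_right (le_col I f) _) _)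
        refine ⟨Polynomial.X ^ e * G₁ + (1 - Polynomial.X ^ e) * G', ?_⟩
        rw [List.length_cons] at hG₁ ⊢
        rw [hrel]
        push_cast at hG₁ hG' ⊢
        rw [mul_add, ← hG', ← hG₁, pow_succ]
        ring

end Pool.Agent.R840.GS
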