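import Pool.Agent.R840.GS.B

/-!
# Consecutive degrees: uniformity
-/

set_option autoImplicit false

open DirectSum

namespace Pool.Agent.R840.GS

variable {k S : Type} [Field k] [CommRing S] [Algebra k S] (𝒮 : ℕ → Submodule k S)
  [GradedAlgebra 𝒮]

theorem exists_prime [IsNoetherianRing S] {J : Ideal S} (hJ : J.IsHomogeneous 𝒮)
    (h : ¬ Cof 𝒮 J) : ∃ p : Ideal S, p.IsPrime ∧ p.IsHomogeneous 𝒮 ∧ J ≤ p ∧ ¬ Cof 𝒮 p := by
  obtain ⟨p, ⟨hp1, hp2, hp3⟩, hmax⟩ := (wellFounded_gt (α := Ideal S)).has_min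
    {I : Ideal S | I.IsHomogeneous 𝒮 ∧ J ≤ I ∧ ¬ Cof 𝒮 I} ⟨J, hJ, le_refl _, h⟩
  refine ⟨p, ?_, hp1, hp2, hp3⟩
  apply hp1.isPrime_of_homogeneous_mem_or_mem
  · rintro rfl
    exact hp3 ⟨0, fun _ _ _ _ => trivial⟩
  · rintro x y ⟨r, hx⟩ ⟨s, hy⟩ hxy
    by_contra hcon
    rw [not_or] at hcon
    have big : ∀ (z : S) (t : ℕ), z ∈ 𝒮 t → z ∉ p → Cof 𝒮 (p ⊔ Ideal.span {z}) := by
      intro z t hz hzp
      by_contra hc
      refine hmax (p ⊔ Ideal.span {z}) ⟨sup_hom 𝒮 hp1 hz, hp2.trans le_sup_left, hc⟩ ?_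
      refine lt_of_le_of_ne le_sup_left (fun he => hzp ?_)
      rw [he]
      exact (le_sup_right : Ideal.span {z} ≤ p ⊔ Ideal.span {z}) (Ideal.subset_span rfl)
    obtain ⟨M₁, hM₁⟩ := big x r hx hcon.1
    obtain ⟨M₂, hM₂⟩ := big y s hy hcon.2
    apply hp3
    refine ⟨M₁ + M₂ + r, fun j hj z hz => ?_⟩
    obtain ⟨a, ha, b, hb, hab⟩ := Submodule.mem_sup.1 (hM₁ j (by omega) z hz)
    obtain ⟨g, rfl⟩ := Ideal.mem_span_singleton'.1 hb
    have h1 := congrArg (fun z => (decompose 𝒮 z j : S)) hab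
    simp only [decompose_add, DirectSum.add_apply, Submodule.coe_add] at h1
    rw [mul_comm g x, coe_decompose_mul_of_left_mem_of_le 𝒮 hx (by omega),
      decompose_of_mem_same 𝒮 hz] at h1
    obtain ⟨a', ha', b', hb', hab'⟩ := Submodule.mem_sup.1
      (hM₂ (j - r) (by omega) (decompose 𝒮 g (j - r) : S) (SetLike.coe_mem _))
    obtain ⟨g', rfl⟩ := Ideal.mem_span_singleton'.1 hb'
    rw [← h1, ← hab']
    refine p.add_mem (hp1 j ha) ?_
    have h2 : x * (a' + g' * y) = x * a' + g' * (x * y) := by ring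
    rw [h2]
    exact p.add_mem (p.mul_mem_left _ ha') (p.mul_mem_left _ hxy)

/-- `O(1)` is invertible on `Proj S`: at every homogeneous prime ideal which does not contain all
elements of positive degree there are elements of two consecutive degrees which are not in it. -/
def TwistInvertible : Prop :=
  ∀ p : Ideal S, p.IsPrime → p.IsHomogeneous 𝒮 → (∃ n, 0 < n ∧ ∃ x ∈ 𝒮 n, x ∉ p) →
    ∃ n, ∃ x ∈ 𝒮 n, ∃ y ∈ 𝒮 (n + 1), x ∉ p ∧ y ∉ p

theorem span_deg_hom (m : ℕ) : (Ideal.span (𝒮 m : Set S)).IsHomogeneous 𝒮 :=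
  Ideal.homogeneous_span 𝒮 _ fun x hx => ⟨m, hx⟩

theorem exists_deg [IsNoetherianRing S] (hinv : TwistInvertible 𝒮) :
    ∃ N, ∀ m, N ≤ m → Cof 𝒮 (Ideal.span (𝒮 m : Set S)) := by
  set T : Set S := {z | ∃ n, ∃ x ∈ 𝒮 n, ∃ y ∈ 𝒮 (n + 1), z = x * y} with hT
  have hK : (Ideal.span T).IsHomogeneous 𝒮 := by
    refine Ideal.homogeneous_span 𝒮 _ ?_
    rintro z ⟨n, x, hx, y, hy, rfl⟩
    exact ⟨n + (n + 1), SetLike.mul_mem_graded hx hy⟩
  have pos : ∀ p : Ideal S, ¬ Cof 𝒮 p → ∃ n, 0 < n ∧ ∃ x ∈ 𝒮 n, x ∉ p := by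
    intro p hp
    by_contra hcon
    apply hp
    refine ⟨1, fun j hj x hx => ?_⟩
    by_contra hxp
    exact hcon ⟨j, hj, x, hx, hxp⟩
  have hcK : Cof 𝒮 (Ideal.span T) := by
    by_contra hc
    obtain ⟨p, hp1, hp2, hp3, hp4⟩ := exists_prime 𝒮 hK hc
    obtain ⟨n, x, hx, y, hy, hxp, hyp⟩ := hinv p hp1 hp2 (pos p hp4)
    rcases hp1.mem_or_mem (hp3 (Ideal.subset_span ⟨n, x, hx, y, hy, rfl⟩)) with h | h
    · exact hxp h
    · exact hyp h
  obtain ⟨T', hT', hspan⟩ := (Submodule.fg_span_iff_fg_span_finset_subset T).1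
    (IsNoetherian.noetherian (Ideal.span T))
  have hex : ∀ z : T', ∃ n, ∃ x ∈ 𝒮 n, ∃ y ∈ 𝒮 (n + 1), (z : S) = x * y := fun z => hT' z.2
  choose n x hx y hy hz using hex
  refine ⟨∑ z : T', n z * (n z + 1), fun m hm => ?_⟩
  by_contra hc
  obtain ⟨p, hp1, hp2, hp3, hp4⟩ := exists_prime 𝒮 (span_deg_hom 𝒮 m) hc
  have hnle : ¬ Ideal.span T ≤ p := fun h => hp4 (Cof.mono 𝒮 h hcK)
  have h1 : ∃ z : T', (z : S) ∉ p := by
    by_contra hcon
    push Not at hcon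
    apply hnle
    change Submodule.span S T ≤ p
    rw [hspan]
    exact Submodule.span_le.2 fun z hz => hcon ⟨z, hz⟩
  obtain ⟨z, hzp⟩ := h1
  have hxp : x z ∉ p := fun h => hzp (by rw [hz z]; exact p.mul_mem_right _ h)
  have hyp : y z ∉ p := fun h => hzp (by rw [hz z]; exact p.mul_mem_left _ h)
  have hmz : n z * (n z + 1) ≤ m :=
    (Finset.single_le_sum (f := fun z : T' => n z * (n z + 1)) (fun _ _ => Nat.zero_le _)
      (Finset.mem_univ z)).trans hm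
  have hab : ∃ α β : ℕ, α * n z + β * (n z + 1) = m := by
    rcases Nat.eq_zero_or_pos (n z) with h0 | h0
    · exact ⟨0, m, by rw [h0]; ring⟩
    · have h2 := Nat.div_add_mod m (n z)
      have h3 := Nat.mod_lt m h0
      have h4 : n z ≤ m / n z := by
        rw [Nat.le_div_iff_mul_le h0]
        nlinarith
      refine ⟨m / n z - m % n z, m % n z, ?_⟩
      obtain ⟨d, hd⟩ := Nat.exists_eq_add_of_le (show m % n z ≤ m / n z by omega)
      rw [hd, Nat.add_sub_cancel_left]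
      rw [hd] at h2
      nlinarith
  obtain ⟨α, β, hαβ⟩ := hab
  have hmem : x z ^ α * y z ^ β ∈ 𝒮 m := by
    have h5 := SetLike.mul_mem_graded (A := 𝒮) (SetLike.pow_mem_graded α (hx z))
      (SetLike.pow_mem_graded β (hy z))
    rw [smul_eq_mul, smul_eq_mul, hαβ] at h5
    exact h5
  rcases hp1.mem_or_mem (hp3 (Ideal.subset_span hmem)) with h | h
  · exact hxp (hp1.mem_of_pow_mem _ h)
  · exact hyp (hp1.mem_of_pow_mem _ h)

theorem exists_list [IsNoetherianRing S] (m : ℕ) : ∃ L : List S, (∀ f ∈ L, f ∈ 𝒮 m) ∧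
    Ideal.span {f | f ∈ L} = Ideal.span (𝒮 m : Set S) := by
  obtain ⟨T', hT', hspan⟩ := (Submodule.fg_span_iff_fg_span_finset_subset (𝒮 m : Set S)).1
    (IsNoetherian.noetherian (Ideal.span (𝒮 m : Set S)))
  refine ⟨T'.toList, fun f hf => hT' (Finset.mem_toList.1 hf), ?_⟩
  have h : {f | f ∈ T'.toList} = (T' : Set S) := by
    ext f
    simp
  rw [h]
  exact hspan.symm

/-- The Hilbert series has only poles at `1`, in the form of two equations. -/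
theorem two_eqs [IsNoetherianRing S] [∀ n, Module.Finite k (𝒮 n)] (hinv : TwistInvertible 𝒮) :
    ∃ (n r r' : ℕ) (G G' : Polynomial ℚ), 0 < n ∧
      ((1 - Polynomial.X ^ n : Polynomial ℚ) : PowerSeries ℚ) ^ r * H 𝒮 ⊥ = (G : PowerSeries ℚ) ∧
      ((1 - Polynomial.X ^ (n + 1) : Polynomial ℚ) : PowerSeries ℚ) ^ r' * H 𝒮 ⊥ =
        (G' : PowerSeries ℚ) := by
  obtain ⟨N, hN⟩ := exists_deg 𝒮 hinv
  have key : ∀ m, N ≤ m → ∃ (r : ℕ) (G : Polynomial ℚ),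
      ((1 - Polynomial.X ^ m : Polynomial ℚ) : PowerSeries ℚ) ^ r * H 𝒮 ⊥ =
        (G : PowerSeries ℚ) := by
    intro m hm
    obtain ⟨L, hL, hspan⟩ := exists_list 𝒮 m
    obtain ⟨G, hG⟩ := hilbert_serre 𝒮 m L hL ⊥ (Ideal.IsHomogeneous.bot 𝒮) (by
      rw [bot_sup_eq, hspan]
      exact hN m hm)
    exact ⟨_, G, hG⟩
  obtain ⟨r, G, hG⟩ := key (N + 1) (by omega)
  obtain ⟨r', G', hG'⟩ := key (N + 1 + 1) (by omega)
  exact ⟨N + 1, r, r', G, G', by omega, hG, hG'⟩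

end Pool.Agent.R840.GS
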