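import Pool.Agent.R840.GS.C

/-!
# Graded Gorenstein rings: the Hilbert series
-/

set_option autoImplicit false

open DirectSum

namespace Pool.Agent.R840.GS

variable {k S : Type} [Field k] [CommRing S] [Algebra k S] (𝒮 : ℕ → Submodule k S)

/-- The socle of `S / I`: the elements which are killed by all elements of positive degree. -/
def socle (I : Ideal S) : Submodule k (S ⧸ I) where
  carrier := {z | ∀ n, 0 < n → ∀ x ∈ 𝒮 n, Ideal.Quotient.mk I x * z = 0}
  add_mem' := by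
    intro a b ha hb n hn x hx
    rw [mul_add, ha n hn x hx, hb n hn x hx, add_zero]
  zero_mem' := by
    intro n _ x _
    rw [mul_zero]
  smul_mem' := by
    intro c z hz n hn x hx
    rw [mul_smul_comm, hz n hn x hx, smul_zero]

/-- `S` is a graded Gorenstein ring of dimension `m`: `θ` is a regular sequence of `m` elements of
the positive degrees `e`, such that `S / (θ)` is zero in the degrees above `σ`, not zero in degree
`σ`, and its socle has dimension one. The `a`-invariant of `S` is `σ - ∑ e i`. -/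
structure GorData {m : ℕ} (θ : Fin m → S) (e : Fin m → ℕ) (σ : ℕ) : Prop where
  pos : ∀ i, 0 < e i
  mem : ∀ i, θ i ∈ 𝒮 (e i)
  reg : ∀ (i : Fin m) (c : S), θ i * c ∈ Ideal.span (θ '' {j | j < i}) →
    c ∈ Ideal.span (θ '' {j | j < i})
  top_mem : ∃ x ∈ 𝒮 σ, x ∉ Ideal.span (Set.range θ)
  top : ∀ n, σ < n → ∀ x ∈ 𝒮 n, x ∈ Ideal.span (Set.range θ)
  socle_one : Module.finrank k (socle 𝒮 (Ideal.span (Set.range θ))) = 1

variable [GradedAlgebra 𝒮]

section

variable {m : ℕ} {θ : Fin m → S} {e : Fin m → ℕ} {σ : ℕ}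

theorem span_hom (hm : ∀ i, θ i ∈ 𝒮 (e i)) (s : Set (Fin m)) :
    (Ideal.span (θ '' s)).IsHomogeneous 𝒮 := by
  refine Ideal.homogeneous_span 𝒮 _ ?_
  rintro x ⟨i, _, rfl⟩
  exact ⟨e i, hm i⟩

open PowerSeries in
theorem H_seq [∀ n, Module.Finite k (𝒮 n)] (h : GorData 𝒮 θ e σ) :
    ∀ i : ℕ, i ≤ m → (∏ j ∈ Finset.univ.filter (fun j : Fin m => (j : ℕ) < i),
      (1 - (X : PowerSeries ℚ) ^ e j)) * H 𝒮 ⊥ = H 𝒮 (Ideal.span (θ '' {j | (j : ℕ) < i})) := by
  intro i
  induction i with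
  | zero =>
    intro _
    have h0 : Finset.univ.filter (fun j : Fin m => (j : ℕ) < 0) = ∅ := by
      ext j
      simp
    have h1 : θ '' {j : Fin m | (j : ℕ) < 0} = ∅ := by
      simp
    rw [h0, Finset.prod_empty, one_mul, h1, Ideal.span_empty]
  | succ i ih =>
    intro hi
    have him : i < m := by omega
    have h0 : Finset.univ.filter (fun j : Fin m => (j : ℕ) < i + 1) =
        insert ⟨i, him⟩ (Finset.univ.filter (fun j : Fin m => (j : ℕ) < i)) := by
      ext j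
      simp only [Finset.mem_filter, Finset.mem_univ, true_and, Finset.mem_insert, Fin.ext_iff]
      omega
    have h1 : Ideal.span (θ '' {j : Fin m | (j : ℕ) < i + 1}) =
        Ideal.span (θ '' {j : Fin m | (j : ℕ) < i}) ⊔ Ideal.span {θ ⟨i, him⟩} := by
      rw [← Ideal.span_union]
      congr 1
      ext x
      simp only [Set.mem_image, Set.mem_ofPred_eq, Set.mem_union, Set.mem_singleton_iff]
      constructor
      · rintro ⟨j, hj, rfl⟩
        by_cases hji : (j : ℕ) < i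
        · exact Or.inl ⟨j, hji, rfl⟩
        · right
          congr 1
          apply Fin.ext
          change (j : ℕ) = i
          omega
      · rintro (⟨j, hj, rfl⟩ | rfl)
        · exact ⟨j, by omega, rfl⟩
        · exact ⟨⟨i, him⟩, by change i < i + 1; omega, rfl⟩
    have hcol : col (Ideal.span (θ '' {j : Fin m | (j : ℕ) < i})) (θ ⟨i, him⟩) =
        Ideal.span (θ '' {j : Fin m | (j : ℕ) < i}) :=
      le_antisymm (fun c hc => h.reg ⟨i, him⟩ c hc) (le_col _ _)
    have hrel := H_rel 𝒮 (span_hom 𝒮 h.mem {j : Fin m | (j : ℕ) < i}) (h.mem ⟨i, him⟩)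
    rw [hcol, ← h1] at hrel
    rw [h0, Finset.prod_insert (by simp), mul_assoc, ih (by omega), sub_mul, one_mul]
    nth_rewrite 1 [hrel]
    ring

open PowerSeries in
theorem H_full [∀ n, Module.Finite k (𝒮 n)] (h : GorData 𝒮 θ e σ) :
    (∏ j, (1 - (X : PowerSeries ℚ) ^ e j)) * H 𝒮 ⊥ = H 𝒮 (Ideal.span (Set.range θ)) := by
  have h1 := H_seq 𝒮 h m (le_refl m)
  have h2 : Finset.univ.filter (fun j : Fin m => (j : ℕ) < m) = Finset.univ := by
    ext j
    simp
  have h3 : θ '' {j : Fin m | (j : ℕ) < m} = Set.range θ := by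
    rw [← Set.image_univ]
    congr 1
    ext j
    simp
  rw [h2, h3] at h1
  exact h1

/-- the ideal of the regular sequence is homogeneous -/
theorem range_hom (h : GorData 𝒮 θ e σ) : (Ideal.span (Set.range θ)).IsHomogeneous 𝒮 := by
  rw [← Set.image_univ]
  exact span_hom 𝒮 h.mem Set.univ

theorem mem_socle_of {n : ℕ} {I : Ideal S} {x : S} (_ : x ∈ 𝒮 n)
    (h : ∀ t, 0 < t → ∀ w ∈ 𝒮 t, w * x ∈ I) : Ideal.Quotient.mk I x ∈ socle 𝒮 I := by
  intro t ht w hw
  rw [← map_mul, Ideal.Quotient.eq_zero_iff_mem]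
  exact h t ht w hw

/-- Homogeneous elements of the socle outside the ideal have degree `σ`. -/
theorem deg_socle (h : GorData 𝒮 θ e σ) {n : ℕ} {x : S} (hx : x ∈ 𝒮 n)
    (hxI : x ∉ Ideal.span (Set.range θ))
    (hs : ∀ t, 0 < t → ∀ w ∈ 𝒮 t, w * x ∈ Ideal.span (Set.range θ)) : n = σ := by
  obtain ⟨t, ht, htI⟩ := h.top_mem
  set I := Ideal.span (Set.range θ) with hI
  have hts : ∀ j, 0 < j → ∀ w ∈ 𝒮 j, w * t ∈ I := fun j hj w hw =>
    h.top (j + σ) (by omega) _ (SetLike.mul_mem_graded hw ht)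
  have h1 := mem_socle_of 𝒮 hx hs
  have h2 := mem_socle_of 𝒮 ht hts
  obtain ⟨v, hv, hall⟩ := finrank_eq_one_iff'.1 h.socle_one
  obtain ⟨c₁, hc₁⟩ := hall ⟨_, h1⟩
  obtain ⟨c₂, hc₂⟩ := hall ⟨_, h2⟩
  have hc₁' : c₁ ≠ 0 := by
    rintro rfl
    rw [zero_smul] at hc₁
    apply hxI
    rw [← Ideal.Quotient.eq_zero_iff_mem]
    exact (congrArg Subtype.val hc₁).symm
  have hrel : Ideal.Quotient.mk I t = (c₂ * c₁⁻¹) • Ideal.Quotient.mk I x := by
    have e1 : c₁ • (v : S ⧸ I) = Ideal.Quotient.mk I x := congrArg Subtype.val hc₁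
    have e2 : c₂ • (v : S ⧸ I) = Ideal.Quotient.mk I t := congrArg Subtype.val hc₂
    rw [← e1, ← e2, smul_smul, mul_assoc, inv_mul_cancel₀ hc₁', mul_one]
  by_contra hne
  apply htI
  have hsub : t - (c₂ * c₁⁻¹) • x ∈ I := by
    rw [← Ideal.Quotient.eq_zero_iff_mem, map_sub, hrel, sub_eq_zero]
    rfl
  have h3 := range_hom 𝒮 h σ hsub
  rw [decompose_sub, DirectSum.sub_apply, Submodule.coe_sub, decompose_of_mem_same 𝒮 ht,
    decompose_of_mem_ne 𝒮 ((𝒮 n).smul_mem _ hx) hne, sub_zero] at h3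
  exact h3

/-- The pairing is not degenerate. -/
theorem nondeg (h : GorData 𝒮 θ e σ) {n : ℕ} {x : S} (hx : x ∈ 𝒮 n)
    (hxI : x ∉ Ideal.span (Set.range θ)) :
    ∃ d, n + d = σ ∧ ∃ y ∈ 𝒮 d, x * y ∉ Ideal.span (Set.range θ) := by
  classical
  set I := Ideal.span (Set.range θ) with hI
  let P : ℕ → Prop := fun d => ∃ y ∈ 𝒮 d, x * y ∉ I
  have h0 : P 0 := ⟨1, SetLike.one_mem_graded 𝒮, by rwa [mul_one]⟩
  have hb : ∀ d, P d → d ≤ σ := by
    rintro d ⟨y, hy, hxy⟩
    by_contra hd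
    exact hxy (h.top (n + d) (by omega) _ (SetLike.mul_mem_graded hx hy))
  have hmax := Nat.findGreatest_spec (P := P) (Nat.zero_le σ) h0
  set d := Nat.findGreatest P σ with hd
  obtain ⟨y, hy, hxy⟩ := hmax
  refine ⟨d, ?_, y, hy, hxy⟩
  refine deg_socle 𝒮 h (SetLike.mul_mem_graded hx hy) hxy ?_
  intro t ht w hw
  by_contra hcon
  have hP : P (d + t) := ⟨y * w, SetLike.mul_mem_graded hy hw, by
    have : x * (y * w) = w * (x * y) := by ring
    rwa [this]⟩
  have h1 := Nat.le_findGreatest (hb _ hP) hP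
  omega

theorem hf_top_le [∀ n, Module.Finite k (𝒮 n)] (h : GorData 𝒮 θ e σ) :
    hf 𝒮 (Ideal.span (Set.range θ)) σ ≤ 1 := by
  set I := Ideal.span (Set.range θ) with hI
  have hts : ∀ t ∈ 𝒮 σ, ∀ j, 0 < j → ∀ w ∈ 𝒮 j, w * t ∈ I := fun t ht j hj w hw =>
    h.top (j + σ) (by omega) _ (SetLike.mul_mem_graded hw ht)
  let φ : 𝒮 σ →ₗ[k] socle 𝒮 I :=
    { toFun := fun t => ⟨Ideal.Quotient.mk I t, mem_socle_of 𝒮 t.2 (hts t t.2)⟩
      map_add' := fun x y => Subtype.ext (map_add _ _ _)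
      map_smul' := fun c x => Subtype.ext rfl }
  have hker : LinearMap.ker φ = part 𝒮 I σ := by
    ext x
    rw [LinearMap.mem_ker, mem_part, ← Ideal.Quotient.eq_zero_iff_mem]
    constructor
    · intro hx
      exact congrArg Subtype.val hx
    · intro hx
      exact Subtype.ext hx
  have hfin : Module.Finite k (socle 𝒮 I) :=
    Module.finite_of_finrank_pos (by rw [h.socle_one]; exact one_pos)
  unfold hf
  rw [← hker, (LinearMap.quotKerEquivRange φ).finrank_eq, ← h.socle_one]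
  exact Submodule.finrank_le _

theorem hf_le [∀ n, Module.Finite k (𝒮 n)] (h : GorData 𝒮 θ e σ) {n d : ℕ} (hnd : n + d = σ) :
    hf 𝒮 (Ideal.span (Set.range θ)) n ≤ hf 𝒮 (Ideal.span (Set.range θ)) d := by
  subst hnd
  have htop := hf_top_le 𝒮 h
  set I := Ideal.span (Set.range θ) with hI
  let mulx : 𝒮 n → 𝒮 d →ₗ[k] 𝒮 (n + d) := fun x =>
    { toFun := fun y => ⟨x * y, SetLike.mul_mem_graded x.2 y.2⟩
      map_add' := fun y z => Subtype.ext (mul_add _ _ _)
      map_smul' := fun c y => Subtype.ext (mul_smul_comm c (x : S) (y : S)) }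
  have hle : ∀ x : 𝒮 n, part 𝒮 I d ≤ (part 𝒮 I (n + d)).comap (mulx x) := fun x y hy =>
    I.mul_mem_left _ hy
  let Φ : 𝒮 n →ₗ[k] (𝒮 d ⧸ part 𝒮 I d) →ₗ[k] (𝒮 (n + d) ⧸ part 𝒮 I (n + d)) :=
    { toFun := fun x => Submodule.mapQ _ _ (mulx x) (hle x)
      map_add' := by
        intro x y
        apply Submodule.linearMap_qext
        ext z
        change (part 𝒮 I (n + d)).mkQ (mulx (x + y) z) =
          (part 𝒮 I (n + d)).mkQ (mulx x z) + (part 𝒮 I (n + d)).mkQ (mulx y z)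
        rw [← map_add]
        congr 1
        exact Subtype.ext (add_mul _ _ _)
      map_smul' := by
        intro c x
        apply Submodule.linearMap_qext
        ext z
        change (part 𝒮 I (n + d)).mkQ (mulx (c • x) z) =
          c • (part 𝒮 I (n + d)).mkQ (mulx x z)
        rw [← map_smul]
        congr 1
        exact Subtype.ext (smul_mul_assoc c (x : S) (z : S)) }
  have hker : LinearMap.ker Φ ≤ part 𝒮 I n := by
    intro x hx
    by_contra hxI
    obtain ⟨d', hd', y, hy, hxy⟩ := nondeg 𝒮 h x.2 hxI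
    obtain rfl : d' = d := by omega
    apply hxy
    have h1 : Φ x = 0 := hx
    have h2 := congrArg (fun f => f ((part 𝒮 I d').mkQ ⟨y, hy⟩)) h1
    change (part 𝒮 I (n + d')).mkQ (mulx x ⟨y, hy⟩) = 0 at h2
    rw [Submodule.mkQ_apply, Submodule.Quotient.mk_eq_zero, mem_part] at h2
    exact h2
  have h1 : hf 𝒮 I n ≤ Module.finrank k (𝒮 n ⧸ LinearMap.ker Φ) :=
    LinearMap.finrank_le_finrank_of_surjective (Submodule.factor_surjective hker)
  have h2 : Module.finrank k (𝒮 n ⧸ LinearMap.ker Φ) ≤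
      Module.finrank k ((𝒮 d ⧸ part 𝒮 I d) →ₗ[k] (𝒮 (n + d) ⧸ part 𝒮 I (n + d))) := by
    rw [(LinearMap.quotKerEquivRange Φ).finrank_eq]
    exact Submodule.finrank_le _
  rw [Module.finrank_linearMap] at h2
  unfold hf at htop h1 ⊢
  calc _ ≤ _ := h1
    _ ≤ _ := h2
    _ ≤ Module.finrank k (𝒮 d ⧸ part 𝒮 I d) * 1 := Nat.mul_le_mul_left _ htop
    _ = _ := mul_one _

theorem hf_symm [∀ n, Module.Finite k (𝒮 n)] (h : GorData 𝒮 θ e σ) {n d : ℕ} (hnd : n + d = σ) :
    hf 𝒮 (Ideal.span (Set.range θ)) n = hf 𝒮 (Ideal.span (Set.range θ)) d :=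
  le_antisymm (hf_le 𝒮 h hnd) (hf_le 𝒮 h (by omega))

/-- An element of degree zero in a homogeneous ideal generated by elements of positive degree. -/
theorem zero_of_mem (h : GorData 𝒮 θ e σ) {x : S} (hx : x ∈ 𝒮 0)
    (hxI : x ∈ Ideal.span (Set.range θ)) : x = 0 := by
  have key : ∀ y ∈ Ideal.span (Set.range θ), (decompose 𝒮 y 0 : S) = 0 := by
    intro y hy
    refine Submodule.span_induction (p := fun y _ => (decompose 𝒮 y 0 : S) = 0) ?_ ?_ ?_ ?_ hy
    · rintro _ ⟨i, rfl⟩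
      exact decompose_of_mem_ne 𝒮 (h.mem i) (h.pos i).ne'
    · simp
    · intro a b _ _ ha hb
      rw [decompose_add, DirectSum.add_apply, Submodule.coe_add, ha, hb, add_zero]
    · intro c a _ ha
      -- the component of degree zero is multiplicative
      rw [smul_eq_mul]
      have h1 : (decompose 𝒮 (c * a) 0 : S) = (decompose 𝒮 c 0 : S) * (decompose 𝒮 a 0 : S) := by
        have := map_mul (GradedRing.projZeroRingHom 𝒮) c a
        simpa [GradedRing.projZeroRingHom_apply] using this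
      rw [h1, ha, mul_zero]
  have h2 := key x hxI
  rwa [decompose_of_mem_same 𝒮 hx] at h2

theorem hf_bot_zero (h0 : ∀ x ∈ 𝒮 0, ∃ c : k, algebraMap k S c = x) [Nontrivial S] (I : Ideal S)
    (hI : ∀ x ∈ 𝒮 0, x ∈ I → x = 0) : hf 𝒮 I 0 = 1 := by
  have hp : part 𝒮 I 0 = ⊥ := by
    rw [eq_bot_iff]
    intro x hx
    exact Subtype.ext (hI x x.2 hx)
  unfold hf
  rw [hp, (Submodule.quotEquivOfEqBot _ rfl).finrank_eq, finrank_eq_one_iff']
  refine ⟨⟨1, SetLike.one_mem_graded 𝒮⟩, fun h => one_ne_zero (congrArg Subtype.val h), ?_⟩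
  rintro ⟨w, hw⟩
  obtain ⟨c, rfl⟩ := h0 w hw
  exact ⟨c, Subtype.ext (by
    change c • (1 : S) = algebraMap k S c
    rw [Algebra.algebraMap_eq_smul_one])⟩

end

end Pool.Agent.R840.GS
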